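import Pool.Agent.Results.MP_56ca39_gt.NoUniversal

set_option autoImplicit false

/-!
# Dominating families of compacta for l-embeddings and t-embeddings

Let `κ` be an uncountable cardinal, at most the continuum. If every compact space of weight at most `κ`
can be t-embedded in a member of a family of compact spaces, then the sum over the family of the
numbers `weight ^ ℵ₀` is at least `2 ^ κ`.
-/

open Set Topology Cardinal Filter TopologicalSpace

namespace Pool.Agent.Results.MP_56ca39_gt.DominatingFamilies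

open Pool.Agent.Results.MP_56ca39_gt.NoUniversal

/-- a compact space has at most `max ℵ₀ weight ^ ℵ₀` continuous functions -/
theorem code' (U : Type) [TopologicalSpace U] [CompactSpace U] :
    #(Cp U) ≤ (max ℵ₀ (weight U)) ^ ℵ₀ := by
  classical
  obtain ⟨B, hB, hBw⟩ := exists_base U
  have hG : ∀ (f : Cp U) (p q : ℚ), ∃ G : Finset B, p < q →
      (∀ u, f.1 u ≤ p → ∃ b ∈ G, u ∈ b.1) ∧ (∀ u, ∀ b ∈ G, u ∈ b.1 → f.1 u < q) := by
    intro f p q
    by_cases hpq : p < q
    · have hpq' : (p:ℝ) < q := by exact_mod_cast hpq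
      have hK : IsCompact {u | f.1 u ≤ p} := (isClosed_le f.2 continuous_const).isCompact
      have hO : IsOpen {u | f.1 u < q} := isOpen_lt f.2 continuous_const
      let c : {b : B // b.1 ⊆ {u | f.1 u < q}} → Set U := fun b => b.1.1
      obtain ⟨G, hG⟩ := hK.elim_finite_subcover c (fun b => hB.isOpen b.1.2) (by
        intro u hu
        have hu' : u ∈ {u | f.1 u < q} := lt_of_le_of_lt (show f.1 u ≤ p from hu) hpq'
        obtain ⟨b, hb, hub, hbO⟩ := hB.exists_subset_of_mem_open hu' hO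
        exact mem_iUnion.2 ⟨⟨⟨b, hb⟩, hbO⟩, hub⟩)
      refine ⟨G.image fun b => b.1, fun _ => ⟨?_, ?_⟩⟩
      · intro u hu
        obtain ⟨b, hb, hub⟩ := mem_iUnion₂.1 (hG hu)
        exact ⟨b.1, Finset.mem_image_of_mem _ hb, hub⟩
      · intro u b hb hub
        obtain ⟨b', -, rfl⟩ := Finset.mem_image.1 hb
        exact b'.2 hub
    · exact ⟨∅, fun h => absurd h hpq⟩
  choose G hG using hG
  have main : ∀ f g : Cp U, (∀ p q, G f p q = G g p q) → ∀ u, g.1 u ≤ f.1 u := by
    intro f g hfg u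
    by_contra hlt
    push Not at hlt
    obtain ⟨p, hp1, hp2⟩ := exists_rat_btwn hlt
    obtain ⟨q, hq1, hq2⟩ := exists_rat_btwn hp2
    have hpq : p < q := by exact_mod_cast hq1
    obtain ⟨b, hb, hub⟩ := (hG f p q hpq).1 u hp1.le
    rw [hfg] at hb
    exact absurd ((hG g p q hpq).2 u b hb hub) (not_lt.2 hq2.le)
  have hinj : Function.Injective G := by
    intro f g hfg
    have h1 : ∀ p q, G f p q = G g p q := fun p q => congrFun (congrFun hfg p) q
    apply Subtype.ext
    funext u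
    exact le_antisymm (main g f (fun p q => (h1 p q).symm) u) (main f g h1 u)
  have h1 : #(Cp U) ≤ #(ℚ → ℚ → Finset B) := mk_le_of_injective hinj
  have h2 : #(Finset B) ≤ max ℵ₀ (weight U) := by
    rw [← hBw]
    rcases finite_or_infinite B with h | h
    · exact (mk_le_aleph0).trans (le_max_left _ _)
    · rw [mk_finset_of_infinite]
      exact le_max_right _ _
  refine h1.trans ?_
  rw [← power_def, ← power_def, Cardinal.mkRat, ← power_mul, aleph0_mul_aleph0]
  exact power_le_power_right h2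

/-- functions of two rational numbers into `Cp U` -/
theorem code2 (U : Type) [TopologicalSpace U] [CompactSpace U] :
    #(ℚ → ℚ → Cp U) ≤ (max ℵ₀ (weight U)) ^ ℵ₀ := by
  rw [← power_def, ← power_def, Cardinal.mkRat, ← power_mul, aleph0_mul_aleph0]
  refine (power_le_power_right (code' U)).trans ?_
  rw [← power_mul, aleph0_mul_aleph0]

/-- every compact space of weight at most `κ` can be t-embedded in some member of the family -/
def TDominates (κ : Cardinal.{0}) {I : Type} (U : I → Type) [∀ i, TopologicalSpace (U i)] : Prop :=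
  ∀ (K : Type) [TopologicalSpace K], CompactSpace K → T2Space K → weight K ≤ κ →
    ∃ i, CanTEmbed K (U i)

/-- **The size of a dominating family.** -/
theorem bound (κ : Cardinal.{0}) (hκ0 : ℵ₀ < κ) (hκc : κ ≤ 𝔠) {J : Type} (U : J → Type)
    [∀ i, TopologicalSpace (U i)] [∀ i, CompactSpace (U i)] (hU : TDominates κ U) :
    2 ^ κ ≤ Cardinal.sum fun i => (max ℵ₀ (weight (U i))) ^ ℵ₀ := by
  classical
  -- the index set
  let I : Type := κ.out
  have hI : #I = κ := mk_out κ
  have hII : #(I × I) ≤ #(Ioo (0:ℝ) 1) := by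
    rw [mk_prod, Cardinal.lift_id, hI, mul_eq_self hκ0.le, mk_Ioo_real (zero_lt_one)]
    exact hκc
  obtain ⟨j⟩ := (le_def _ _).1 hII
  let R : Set I → Set ℝ := fun A => (fun t : I × I => (j t).1) '' {t | t.1 ∈ A}
  have hR01 : ∀ A, R A ⊆ Ioo 0 1 := by
    rintro A _ ⟨t, -, rfl⟩
    exact (j t).2
  have hRκ : ∀ A, #(R A) ≤ κ := by
    intro A
    apply mk_image_le.trans
    apply (mk_set_le _).trans
    rw [mk_prod, Cardinal.lift_id, hI, mul_eq_self hκ0.le]
  have hT : ∀ A, ∃ i, CanTEmbed (Sp (R A)) (U i) := fun A =>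
    hU (Sp (R A)) (Sp.compact (R A)) inferInstance (Sp.weight_le _ κ hκ0.le (hRκ A))
  have hdata : ∀ A, ∃ i, ∃ e : Sp (R A) → U i, Continuous e ∧
      ∃ Φ : Cp (Sp (R A)) → Cp (U i), Continuous Φ ∧ ∀ f z, (Φ f).1 (e z) = f.1 z := by
    intro A
    obtain ⟨k, Y, ⟨i⟩, φ, hφ, hφe⟩ := hT A
    let tr : Cp (Sp (R A)) → Cp Y := fun f => ⟨fun y => f.1 (i.symm y), f.2.comp i.symm.continuous⟩
    have htr : Continuous tr := by
      apply Continuous.subtype_mk
      exact continuous_pi fun y => (continuous_apply (i.symm y)).comp continuous_subtype_val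
    refine ⟨k, fun z => (i z).1, continuous_subtype_val.comp i.continuous, fun f => φ (tr f),
      hφ.comp htr, ?_⟩
    intro f z
    rw [hφe]
    show f.1 (i.symm (i z)) = f.1 z
    rw [i.symm_apply_apply]
  choose k e he Φ hΦ hΦe using hdata
  let Ψ : Set I → Σ i, (ℚ → ℚ → Cp (U i)) := fun A => ⟨k A, fun a b => Φ A (Sp.rampc (R A) a b)⟩
  have half0 : ∀ A A' : Set I, ∀ (i i' : J) (e : Sp (R A) → U i) (_ : Continuous e)
      (Φ : Cp (Sp (R A)) → Cp (U i)) (_ : ∀ f z, (Φ f).1 (e z) = f.1 z)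
      (Φ' : Cp (Sp (R A')) → Cp (U i')) (_ : Continuous Φ'),
      (⟨i, fun a b => Φ (Sp.rampc (R A) a b)⟩ : Σ i, (ℚ → ℚ → Cp (U i))) =
        ⟨i', fun a b => Φ' (Sp.rampc (R A') a b)⟩ → A' ⊆ A := by
    intro A A' i i' e he Φ hΦe Φ' hΦ' hAA' u hu
    rw [Sigma.mk.injEq] at hAA'
    obtain ⟨rfl, hAA'⟩ := hAA'
    have hAA' := eq_of_heq hAA'
    by_contra huA
    have heq : ∀ a b : ℚ, Φ (Sp.rampc (R A) a b) = Φ' (Sp.rampc (R A') a b) := fun a b =>
      congrFun (congrFun hAA' a) b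
    have hc := core (R A) (R A') (hR01 A') e he Φ hΦe Φ' hΦ' heq
    have hsub : (fun v : I => (j (u, v)).1) '' Set.univ ⊆ R A' \ R A := by
      rintro _ ⟨v, -, rfl⟩
      refine ⟨⟨(u, v), hu, rfl⟩, ?_⟩
      rintro ⟨t, ht, htv⟩
      have h1 : t = (u, v) := j.injective (Subtype.ext htv)
      rw [h1] at ht
      exact huA ht
    have hc' : (Set.univ : Set I).Countable := by
      apply countable_of_injective_of_countable_image _ (hc.mono hsub)
      intro v _ v' _ hvv
      have h1 : (u, v) = (u, v') := j.injective (Subtype.ext hvv)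
      exact (Prod.mk.inj h1).2
    rw [← le_aleph0_iff_set_countable, mk_univ, hI] at hc'
    exact absurd hκ0 (not_lt.2 hc')
  have hΨ : Function.Injective Ψ := by
    intro A A' h
    exact Subset.antisymm
      (half0 A' A _ _ (e A') (he A') (Φ A') (hΦe A') (Φ A) (hΦ A) h.symm)
      (half0 A A' _ _ (e A) (he A) (Φ A) (hΦe A) (Φ A') (hΦ A') h)
  have hcard := mk_le_of_injective hΨ
  rw [mk_set, hI, mk_sigma] at hcard
  exact hcard.trans (Cardinal.sum_le_sum _ _ fun i => code2 (U i))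

/-- **Dominating families for t-embeddings and l-embeddings.** (1) Let `ℵ₀ < κ ≤ 𝔠`, and let every
compact Hausdorff space of weight at most `κ` be t-embeddable in some member of the family `U` of
compact spaces. Then `2 ^ κ ≤ ∑ w ^ ℵ₀`, where `w` runs over the (infinite) weights of the members.
(2) In particular, if the members have weight at most `𝔠` and `𝔠 < 2 ^ κ`, the family has at least
`2 ^ κ` members. (3) If `κ` is uncountable and `κ ^ ℵ₀ < 2 ^ min κ 𝔠`, there is no universal compactum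
of weight `κ` for l-embeddings or for t-embeddings; this holds for `κ = 𝔠`, so the answers to both
questions are negative. -/
theorem result :
    (∀ κ : Cardinal.{0}, ℵ₀ < κ → κ ≤ 𝔠 → ∀ (J : Type) (U : J → Type)
      [∀ i, TopologicalSpace (U i)] [∀ i, CompactSpace (U i)], TDominates κ U →
      2 ^ κ ≤ (Cardinal.sum fun i => (max ℵ₀ (weight (U i))) ^ ℵ₀) ∧
      (𝔠 < 2 ^ κ → (∀ i, weight (U i) ≤ 𝔠) → 2 ^ κ ≤ #J)) ∧
    (∀ κ : Cardinal.{0}, ℵ₀ < κ → κ ^ ℵ₀ < 2 ^ (min κ 𝔠) →
      ¬ LUniversalExists κ ∧ ¬ TUniversalExists κ) ∧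
    (¬ ∀ κ : Cardinal.{0}, ℵ₀ ≤ κ → LUniversalExists κ) ∧
    (¬ ∀ κ : Cardinal.{0}, ℵ₀ ≤ κ → TUniversalExists κ) := by
  have main : ∀ κ : Cardinal.{0}, ℵ₀ < κ → κ ^ ℵ₀ < 2 ^ (min κ 𝔠) →
      ¬ LUniversalExists κ ∧ ¬ TUniversalExists κ := by
    intro κ h1 h2
    have hT : ¬ TUniversalExists κ := by
      rintro ⟨U, _, hUc, -, hUw, hU⟩
      have hdom : TDominates (min κ 𝔠) (fun _ : Unit => U) := fun K _ hK1 hK2 hK3 =>
        ⟨(), hU K hK1 hK2 (hK3.trans (min_le_left _ _))⟩
      have h3 := bound (min κ 𝔠) (lt_min h1 aleph0_lt_continuum) (min_le_right _ _)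
        (fun _ : Unit => U) hdom
      rw [Cardinal.sum_const', mk_unit, one_mul, hUw, max_eq_right h1.le] at h3
      exact absurd h2 (not_lt.2 h3)
    refine ⟨?_, hT⟩
    rintro ⟨U, tU, hUc, hU2, hUw, hU⟩
    exact hT ⟨U, tU, hUc, hU2, hUw, fun K _ hK1 hK2 hK3 => (hU K hK1 hK2 hK3).canT⟩
  have hc := main 𝔠 aleph0_lt_continuum (by
    rw [min_self, continuum_power_aleph0]
    exact cantor 𝔠)
  refine ⟨fun κ h1 h2 J U _ _ hU => ⟨bound κ h1 h2 U hU, fun h3 h4 => ?_⟩, main,
    fun h => hc.1 (h 𝔠 aleph0_le_continuum), fun h => hc.2 (h 𝔠 aleph0_le_continuum)⟩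
  have h5 := bound κ h1 h2 U hU
  have h6 : (Cardinal.sum fun i => (max ℵ₀ (weight (U i))) ^ ℵ₀) ≤ #J * 𝔠 := by
    refine (Cardinal.sum_le_sum _ (fun _ => 𝔠) fun i => ?_).trans ?_
    · have h7 : max ℵ₀ (weight (U i)) ≤ 𝔠 := max_le aleph0_le_continuum (h4 i)
      exact (power_le_power_right h7).trans continuum_power_aleph0.le
    · rw [Cardinal.sum_const']
  by_contra hlt
  push Not at hlt
  have h8 : ℵ₀ ≤ (2 : Cardinal.{0}) ^ κ := aleph0_le_continuum.trans h3.le
  exact absurd (h5.trans h6) (not_le.2 (mul_lt_of_lt h8 hlt h3))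

end Pool.Agent.Results.MP_56ca39_gt.DominatingFamilies
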